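import Mathlib

/-!
A product of quadratic forms (summed over a finite index set) which is nonnegative at
every real vector has a nonnegative Gaussian average; the average is computed with sign
vectors and the basis vectors.
-/

namespace Pool.Agent.H61.YP

open scoped BigOperators

variable {n : ℕ}

/-- sign of a Boolean -/
noncomputable def sg (b : Bool) : ℝ := if b then 1 else -1

lemma sg_sq (b : Bool) : sg b * sg b = 1 := by cases b <;> simp [sg]

lemma sg_not (b : Bool) : sg (!b) = - sg b := by cases b <;> simp [sg]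

/-- fourth moment of sign vectors (not normalised) -/
noncomputable def S4 (i l a b : Fin n) : ℝ :=
  ∑ ε : Fin n → Bool, sg (ε i) * sg (ε l) * sg (ε a) * sg (ε b)

lemma S4_isolated (i l a b : Fin n) (h1 : l ≠ i) (h2 : a ≠ i) (h3 : b ≠ i) :
    S4 i l a b = 0 := by
  have hinv : Function.Involutive (fun ε : Fin n → Bool => Function.update ε i (!ε i)) := by
    intro ε
    simp
  have h := Equiv.sum_comp hinv.toPerm
    (fun ε : Fin n → Bool => sg (ε i) * sg (ε l) * sg (ε a) * sg (ε b))
  have h' : S4 i l a b = - S4 i l a b := by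
    unfold S4
    conv_lhs => rw [← h]
    rw [← Finset.sum_neg_distrib]
    refine Finset.sum_congr rfl fun ε _ => ?_
    simp only [Function.Involutive.coe_toPerm, Function.update_self,
      Function.update_of_ne h1, Function.update_of_ne h2, Function.update_of_ne h3, sg_not]
    ring
  linarith

lemma S4_pair (i a : Fin n) : S4 i i a a = 2 ^ n := by
  unfold S4
  have : ∀ ε : Fin n → Bool, sg (ε i) * sg (ε i) * sg (ε a) * sg (ε a) = 1 := by
    intro ε
    rw [mul_assoc, sg_sq, sg_sq, one_mul]
  simp [this]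

lemma S4_swap12 (i l a b : Fin n) : S4 i l a b = S4 l i a b := by
  unfold S4; exact Finset.sum_congr rfl fun ε _ => by ring

lemma S4_swap23 (i l a b : Fin n) : S4 i l a b = S4 i a l b := by
  unfold S4; exact Finset.sum_congr rfl fun ε _ => by ring

lemma S4_swap34 (i l a b : Fin n) : S4 i l a b = S4 i l b a := by
  unfold S4; exact Finset.sum_congr rfl fun ε _ => by ring

/-- Kronecker symbol -/
noncomputable def dl (i j : Fin n) : ℝ := if i = j then 1 else 0

lemma S4_eq (i l a b : Fin n) :
    S4 i l a b = 2 ^ n * (dl i l * dl a b + dl i a * dl l b + dl i b * dl l a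
      - 2 * (dl i l * dl i a * dl i b)) := by
  by_cases hil : i = l
  · subst hil
    by_cases hab : a = b
    · subst hab
      rw [S4_pair]
      by_cases hia : i = a
      · subst hia; simp [dl]; ring
      · simp [dl, hia]
    · -- a ≠ b
      by_cases hia : i = a
      · subst hia
        rw [S4_swap34, S4_swap23, S4_swap12, S4_isolated b i i i hab hab hab]
        simp [dl, hab]
      · rw [S4_swap23, S4_swap12, S4_isolated a i i b hia hia (Ne.symm hab)]
        simp [dl, hab, hia]
  · by_cases hia : i = a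
    · subst hia
      by_cases hlb : l = b
      · subst hlb
        rw [S4_swap23, S4_pair]
        simp [dl, hil]
      · rw [S4_swap12, S4_isolated l i i b hil hil (Ne.symm hlb)]
        simp [dl, hil, hlb, Ne.symm (Ne.intro hil)]
    · by_cases hib : i = b
      · subst hib
        by_cases hla : l = a
        · subst hla
          rw [S4_swap34, S4_swap23, S4_pair]
          simp [dl, hil]
        · rw [S4_swap12, S4_isolated l i a i hil (Ne.symm hla) hil]
          simp [dl, hil, hia, hla]
      · rw [S4_isolated i l a b (Ne.symm hil) (Ne.symm hia) (Ne.symm hib)]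
        simp [dl, hil, hia, hib]

theorem quartic (c : Fin n → Fin n → Fin n → Fin n → ℝ)
    (h : ∀ x : Fin n → ℝ, 0 ≤ ∑ i, ∑ l, ∑ a, ∑ b, x i * x l * x a * x b * c i l a b) :
    0 ≤ ∑ i, ∑ a, (c i i a a + c i a i a + c i a a i) := by
  have h1 : 0 ≤ ∑ ε : Fin n → Bool,
      ∑ i, ∑ l, ∑ a, ∑ b, sg (ε i) * sg (ε l) * sg (ε a) * sg (ε b) * c i l a b :=
    Finset.sum_nonneg fun ε _ => h fun i => sg (ε i)
  have h2 : ∑ ε : Fin n → Bool,
      ∑ i, ∑ l, ∑ a, ∑ b, sg (ε i) * sg (ε l) * sg (ε a) * sg (ε b) * c i l a b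
      = ∑ i, ∑ l, ∑ a, ∑ b, S4 i l a b * c i l a b := by
    rw [Finset.sum_comm]
    refine Finset.sum_congr rfl fun i _ => ?_
    rw [Finset.sum_comm]
    refine Finset.sum_congr rfl fun l _ => ?_
    rw [Finset.sum_comm]
    refine Finset.sum_congr rfl fun a _ => ?_
    rw [Finset.sum_comm]
    refine Finset.sum_congr rfl fun b _ => ?_
    rw [S4, Finset.sum_mul]
  have h3 : ∑ i, ∑ l, ∑ a, ∑ b, S4 i l a b * c i l a b
      = 2 ^ n * ((∑ i, ∑ a, (c i i a a + c i a i a + c i a a i)) - 2 * ∑ i, c i i i i) := by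
    simp only [S4_eq, dl]
    simp only [mul_add, mul_sub, add_mul, sub_mul, Finset.sum_add_distrib,
      Finset.sum_sub_distrib, mul_ite, ite_mul, mul_one, mul_zero, one_mul, zero_mul,
      Finset.sum_ite_eq, Finset.sum_ite_eq', Finset.mem_univ, if_true]
    simp [Finset.sum_ite_eq, Finset.mul_sum, mul_assoc]
  have h4 : ∀ k : Fin n, 0 ≤ c k k k k := by
    intro k
    have := h (fun i => if i = k then 1 else 0)
    simpa using this
  have h5 : 0 ≤ ∑ k, c k k k k := Finset.sum_nonneg fun k _ => h4 k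
  rw [h2, h3] at h1
  have h6 := nonneg_of_mul_nonneg_right h1 (by positivity)
  linarith

lemma comm4 {κ : Type*} [Fintype κ] (f : κ → Fin n → Fin n → Fin n → Fin n → ℝ) :
    ∑ m, ∑ i, ∑ l, ∑ a, ∑ b, f m i l a b = ∑ i, ∑ l, ∑ a, ∑ b, ∑ m, f m i l a b := by
  rw [Finset.sum_comm]
  refine Finset.sum_congr rfl fun i _ => ?_
  rw [Finset.sum_comm]
  refine Finset.sum_congr rfl fun l _ => ?_
  rw [Finset.sum_comm]
  refine Finset.sum_congr rfl fun a _ => ?_
  rw [Finset.sum_comm]

lemma comm2 {κ : Type*} [Fintype κ] (f : κ → Fin n → Fin n → ℝ) :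
    ∑ m, ∑ i, ∑ l, f m i l = ∑ i, ∑ l, ∑ m, f m i l := by
  rw [Finset.sum_comm]
  refine Finset.sum_congr rfl fun i _ => ?_
  rw [Finset.sum_comm]

theorem moment {κ : Type*} [Fintype κ] (A B : κ → Fin n → Fin n → ℝ)
    (h : ∀ x : Fin n → ℝ, 0 ≤ ∑ m, (∑ i, ∑ l, x i * x l * A m i l)
      * (∑ a, ∑ b, x a * x b * B m a b)) :
    0 ≤ ∑ m, ((∑ i, A m i i) * (∑ a, B m a a)
      + ∑ i, ∑ l, A m i l * (B m i l + B m l i)) := by
  have h0 := quartic (fun i l a b => ∑ m, A m i l * B m a b) (fun x => by
    refine (h x).trans_eq ?_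
    have h1 : ∀ m, (∑ i, ∑ l, x i * x l * A m i l) * (∑ a, ∑ b, x a * x b * B m a b)
        = ∑ i, ∑ l, ∑ a, ∑ b, x i * x l * x a * x b * (A m i l * B m a b) := by
      intro m
      rw [Finset.sum_mul]
      refine Finset.sum_congr rfl fun i _ => ?_
      rw [Finset.sum_mul]
      refine Finset.sum_congr rfl fun l _ => ?_
      rw [Finset.mul_sum]
      refine Finset.sum_congr rfl fun a _ => ?_
      rw [Finset.mul_sum]
      refine Finset.sum_congr rfl fun b _ => ?_
      ring
    simp_rw [h1]
    rw [comm4]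
    simp_rw [Finset.mul_sum])
  refine h0.trans_eq ?_
  have h2 : ∀ m, (∑ i, A m i i) * (∑ a, B m a a) + ∑ i, ∑ l, A m i l * (B m i l + B m l i)
      = ∑ i, ∑ a, (A m i i * B m a a + A m i a * B m i a + A m i a * B m a i) := by
    intro m
    rw [Finset.sum_mul_sum, ← Finset.sum_add_distrib]
    refine Finset.sum_congr rfl fun i _ => ?_
    rw [← Finset.sum_add_distrib]
    refine Finset.sum_congr rfl fun a _ => ?_
    ring
  simp_rw [h2]
  rw [comm2]
  refine Finset.sum_congr rfl fun i _ => Finset.sum_congr rfl fun a _ => ?_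
  rw [Finset.sum_add_distrib, Finset.sum_add_distrib]

end Pool.Agent.H61.YP
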