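import Pool.Agent.H61.YP.Form
import Pool.Agent.H61.YP.Moment

/-!
The core inequality, in components.
-/

namespace Pool.Agent.H61.YP

open scoped BigOperators RealInnerProductSpace

variable {n : ℕ}

/-- two positive semidefinite matrices have nonnegative inner product -/
lemma sum_mul_nonneg (A Y : Fin n → Fin n → ℝ) (hAs : ∀ j k, A j k = A k j)
    (hA : ∀ v : Fin n → ℝ, 0 ≤ ∑ j, ∑ k, v j * v k * A j k) (hYs : ∀ j k, Y j k = Y k j)
    (hY : ∀ v : Fin n → ℝ, 0 ≤ ∑ j, ∑ k, v j * v k * Y j k) :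
    0 ≤ ∑ j, ∑ k, A j k * Y j k := by
  have key : ∀ (B : Fin n → Fin n → ℝ) (v : Fin n → ℝ),
      star v ⬝ᵥ (Matrix.of B).mulVec v = ∑ j, ∑ k, v j * v k * B j k := by
    intro B v
    simp only [dotProduct, Matrix.mulVec, Matrix.of_apply, Pi.star_apply, star_trivial,
      Finset.mul_sum]
    refine Finset.sum_congr rfl fun j _ => Finset.sum_congr rfl fun k _ => ?_
    ring
  have hA' : (Matrix.of A).PosSemidef := by
    refine Matrix.PosSemidef.of_dotProduct_mulVec_nonneg ?_ fun v => ?_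
    · ext j k; simp [Matrix.conjTranspose_apply, hAs k j]
    · rw [key]; exact hA v
  have hY' : (Matrix.of Y).PosSemidef := by
    refine Matrix.PosSemidef.of_dotProduct_mulVec_nonneg ?_ fun v => ?_
    · ext j k; simp [Matrix.conjTranspose_apply, hYs k j]
    · rw [key]; exact hY v
  have h := (hA'.hadamard hY').dotProduct_mulVec_nonneg (fun _ => (1 : ℝ))
  have h2 : star (fun _ : Fin n => (1 : ℝ)) ⬝ᵥ
      ((Matrix.of A).hadamard (Matrix.of Y)).mulVec (fun _ => (1 : ℝ))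
      = ∑ j, ∑ k, A j k * Y j k := by
    simp [dotProduct, Matrix.mulVec]
  rw [h2] at h
  exact h

/-- Algebraic symmetries of the components of a curvature tensor. -/
structure IsCurv (w : Fin n → Fin n → Fin n → Fin n → ℝ) : Prop where
  anti : ∀ i j k l, w i j k l = - w j i k l
  pair : ∀ i j k l, w i j k l = w k l i j
  bianchi : ∀ i j k l, w i j k l + w j k i l + w k i j l = 0

lemma IsCurv.anti' {w : Fin n → Fin n → Fin n → Fin n → ℝ} (h : IsCurv w) (i j k l : Fin n) :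
    w i j k l = - w i j l k := by
  rw [h.pair i j k l, h.anti k l i j, h.pair l k i j]

lemma IsCurv.flip {w : Fin n → Fin n → Fin n → Fin n → ℝ} (h : IsCurv w) (i j k l : Fin n) :
    w i j k l = w l k j i := by
  rw [h.pair i j k l, h.anti k l i j, h.anti' l k i j, neg_neg]

/-- Ricci components -/
noncomputable def ricA (w : Fin n → Fin n → Fin n → Fin n → ℝ) (j k : Fin n) : ℝ :=
  ∑ i, w i j k i

/-- scalar curvature -/
noncomputable def scalA (w : Fin n → Fin n → Fin n → Fin n → ℝ) : ℝ := ∑ j, ricA w j j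

lemma ricA_eq {w : Fin n → Fin n → Fin n → Fin n → ℝ} (h : IsCurv w) (i l : Fin n) :
    ∑ j, w i j j l = ricA w i l := by
  unfold ricA
  refine Finset.sum_congr rfl fun j _ => ?_
  rw [h.anti i j j l, h.anti' j i j l, neg_neg]

/-- second contraction components `⟨(e_a ∧ e_j) ⌟ ω, (e_b ∧ e_k) ⌟ ω⟩` -/
noncomputable def Gm {q : ℕ} (ω : Form n (q + 2)) (a j b k : Fin n) : ℝ :=
  ip ((ω.curryLeft (e a)).curryLeft (e j)) ((ω.curryLeft (e b)).curryLeft (e k))

lemma ip_neg_left {q : ℕ} (φ ψ : Form n q) : ip (-φ) ψ = - ip φ ψ := by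
  simp [ip, Finset.sum_neg_distrib]

lemma ip_neg_right {q : ℕ} (φ ψ : Form n q) : ip φ (-ψ) = - ip φ ψ := by
  rw [ip_comm, ip_neg_left, ip_comm]

lemma Gm_swap1 {q : ℕ} (ω : Form n (q + 2)) (a j b k : Fin n) :
    Gm ω a j b k = - Gm ω j a b k := by
  unfold Gm
  rw [curry_swap, ip_neg_left]

lemma Gm_swap2 {q : ℕ} (ω : Form n (q + 2)) (a j b k : Fin n) :
    Gm ω a j b k = - Gm ω a j k b := by
  unfold Gm
  rw [curry_swap ω (e b), ip_neg_right]

lemma Gm_comm {q : ℕ} (ω : Form n (q + 2)) (a j b k : Fin n) :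
    Gm ω a j b k = Gm ω b k a j := ip_comm _ _

lemma Gm_swap12 {q : ℕ} (ω : Form n (q + 2)) (a j b k : Fin n) :
    Gm ω a j b k = Gm ω j a k b := by
  rw [Gm_swap1, Gm_swap2, neg_neg]

lemma Gm_trace {q : ℕ} (ω : Form n (q + 2)) (j k : Fin n) :
    ∑ a, Gm ω a j a k = MB ω (e j) (e k) := by
  rw [MB_apply, ip_succ]
  refine Finset.sum_congr rfl fun a _ => ?_
  rw [Gm_swap12]; rfl

/-- the vector with given coordinates -/
noncomputable def vec (x : Fin n → ℝ) : E n := WithLp.toLp 2 x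

@[simp] lemma vec_apply (x : Fin n → ℝ) (i : Fin n) : vec x i = x i := rfl

lemma Gm_expand {q : ℕ} (ω : Form n (q + 2)) (x : Fin n → ℝ) (j k : Fin n) :
    ∑ a, ∑ b, x a * x b * Gm ω a j b k
      = MB (ω.curryLeft (vec x)) (e j) (e k) := by
  have h1 : MB (ω.curryLeft (vec x)) (e j) (e k)
      = ip ((ω.curryLeft (e j)).curryLeft (vec x)) ((ω.curryLeft (e k)).curryLeft (vec x)) := by
    rw [MB_apply, curry_swap ω (vec x) (e j), curry_swap ω (vec x) (e k), ip_neg_left,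
      ip_neg_right, neg_neg]
  rw [h1]
  have h2 := bilin_expand
    ((ipB n q).compl₁₂ (ω.curryLeft (e j)).curryLeft (ω.curryLeft (e k)).curryLeft) (vec x) (vec x)
  simp only [LinearMap.compl₁₂_apply, ipB_apply, vec_apply] at h2
  rw [h2]
  refine Finset.sum_congr rfl fun a _ => Finset.sum_congr rfl fun b _ => ?_
  rw [Gm_swap12]; rfl

/-- the matrix of `(n-p)/n M(x,x) Id + p/n |x|^2 M - (p-1) G_x` -/
noncomputable def Ym {q : ℕ} (ω : Form n (q + 2)) (α β : ℝ) (a b j k : Fin n) : ℝ :=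
  α * (MB ω (e a) (e b) * dl j k) + β * (dl a b * MB ω (e j) (e k))
    - ((q : ℝ) + 1) * Gm ω a j b k

lemma dl_comm (i j : Fin n) : dl i j = dl j i := by unfold dl; simp [eq_comm]

lemma Ym_expand {q : ℕ} (ω : Form n (q + 2)) (α β : ℝ) (x : Fin n → ℝ) (j k : Fin n) :
    ∑ a, ∑ b, x a * x b * Ym ω α β a b j k
      = α * (MB ω (vec x) (vec x) * dl j k) + β * (‖vec x‖ ^ 2 * MB ω (e j) (e k))
        - ((q : ℝ) + 1) * MB (ω.curryLeft (vec x)) (e j) (e k) := by
  have h1 := bilin_expand (MB ω) (vec x) (vec x)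
  have h2 : ‖vec x‖ ^ 2 = ∑ a, ∑ b, x a * x b * dl a b := by
    rw [norm_sq]
    refine Finset.sum_congr rfl fun a _ => ?_
    simp [dl, sq]
  rw [h1, h2, ← Gm_expand]
  simp only [vec_apply, Finset.mul_sum, Finset.sum_mul, Ym]
  rw [← Finset.sum_add_distrib, ← Finset.sum_sub_distrib]
  refine Finset.sum_congr rfl fun a _ => ?_
  rw [← Finset.sum_add_distrib, ← Finset.sum_sub_distrib]
  refine Finset.sum_congr rfl fun b _ => ?_
  ring

lemma Y_nonneg {q : ℕ} (ω : Form n (q + 2)) (α β : ℝ) (hα : 0 ≤ α) (hβ : 0 ≤ β)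
    (hαβ : α + β = 1) (x v : Fin n → ℝ) :
    0 ≤ ∑ j, ∑ k, v j * v k * (∑ a, ∑ b, x a * x b * Ym ω α β a b j k) := by
  have h1 := bilin_expand (MB ω) (vec v) (vec v)
  have h2 : ‖vec v‖ ^ 2 = ∑ a, ∑ b, v a * v b * dl a b := by
    rw [norm_sq]
    refine Finset.sum_congr rfl fun a _ => ?_
    simp [dl, sq]
  have h3 := bilin_expand (MB (ω.curryLeft (vec x))) (vec v) (vec v)
  have h4 : ∑ j, ∑ k, v j * v k * (∑ a, ∑ b, x a * x b * Ym ω α β a b j k)
      = α * (MB ω (vec x) (vec x) * ‖vec v‖ ^ 2) + β * (‖vec x‖ ^ 2 * MB ω (vec v) (vec v))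
        - ((q : ℝ) + 1) * MB (ω.curryLeft (vec x)) (vec v) (vec v) := by
    simp_rw [Ym_expand]
    rw [h2, h3, h1]
    simp only [vec_apply, Finset.mul_sum]
    rw [← Finset.sum_add_distrib, ← Finset.sum_sub_distrib]
    refine Finset.sum_congr rfl fun a _ => ?_
    rw [← Finset.sum_add_distrib, ← Finset.sum_sub_distrib]
    refine Finset.sum_congr rfl fun b _ => ?_
    ring
  rw [h4]
  have p1 := pauli q (ω.curryLeft (vec x)) (vec v)
  have p2 := pauli q (ω.curryLeft (vec v)) (vec x)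
  have h5 : ip ((ω.curryLeft (vec v)).curryLeft (vec x)) ((ω.curryLeft (vec v)).curryLeft (vec x))
      = MB (ω.curryLeft (vec x)) (vec v) (vec v) := by
    rw [curry_swap, ip_neg_left, ip_neg_right, neg_neg]; rfl
  rw [h5] at p2
  have h6 : ip ((ω.curryLeft (vec x)).curryLeft (vec v)) ((ω.curryLeft (vec x)).curryLeft (vec v))
      = MB (ω.curryLeft (vec x)) (vec v) (vec v) := rfl
  rw [h6] at p1
  have e1 : ip (ω.curryLeft (vec x)) (ω.curryLeft (vec x)) = MB ω (vec x) (vec x) := rfl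
  have e2 : ip (ω.curryLeft (vec v)) (ω.curryLeft (vec v)) = MB ω (vec v) (vec v) := rfl
  rw [e1] at p1
  rw [e2] at p2
  have a1 := mul_le_mul_of_nonneg_left p1 hα
  have a2 := mul_le_mul_of_nonneg_left p2 hβ
  have : α * (((q : ℝ) + 1) * MB (ω.curryLeft (vec x)) (vec v) (vec v))
      + β * (((q : ℝ) + 1) * MB (ω.curryLeft (vec x)) (vec v) (vec v))
      = ((q : ℝ) + 1) * MB (ω.curryLeft (vec x)) (vec v) (vec v) := by
    rw [← add_mul, hαβ, one_mul]
  nlinarith [a1, a2, this]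

/-- the second contraction `Q = ∑ w_{ijkl} ⟨(e_l ∧ e_j) ⌟ ω, (e_i ∧ e_k) ⌟ ω⟩` -/
noncomputable def QA {q : ℕ} (w : Fin n → Fin n → Fin n → Fin n → ℝ) (ω : Form n (q + 2)) : ℝ :=
  ∑ i, ∑ j, ∑ k, ∑ l, w i j k l * Gm ω l j i k

/-- `⟨M, Ric⟩` -/
noncomputable def rA {q : ℕ} (w : Fin n → Fin n → Fin n → Fin n → ℝ) (ω : Form n (q + 1)) : ℝ :=
  ∑ j, ∑ k, ricA w j k * MB ω (e j) (e k)

lemma rot3 (f : Fin n → Fin n → Fin n → Fin n → ℝ) :
    ∑ i, ∑ j, ∑ k, ∑ l, f i j k l = ∑ i, ∑ j, ∑ k, ∑ l, f k i j l := by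
  have h1 : ∑ i, ∑ j, ∑ k, ∑ l, f k i j l = ∑ i, ∑ k, ∑ j, ∑ l, f k i j l := by
    refine Finset.sum_congr rfl fun i _ => ?_
    rw [Finset.sum_comm]
  rw [h1, Finset.sum_comm]

lemma swap12 (f : Fin n → Fin n → Fin n → Fin n → ℝ) :
    ∑ i, ∑ j, ∑ k, ∑ l, f i j k l = ∑ i, ∑ j, ∑ k, ∑ l, f j i k l := by
  rw [Finset.sum_comm]

lemma swap23 (f : Fin n → Fin n → Fin n → Fin n → ℝ) :
    ∑ i, ∑ j, ∑ k, ∑ l, f i j k l = ∑ i, ∑ j, ∑ k, ∑ l, f i k j l := by
  refine Finset.sum_congr rfl fun i _ => ?_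
  rw [Finset.sum_comm]

lemma swap34 (f : Fin n → Fin n → Fin n → Fin n → ℝ) :
    ∑ i, ∑ j, ∑ k, ∑ l, f i j k l = ∑ i, ∑ j, ∑ k, ∑ l, f i j l k := by
  refine Finset.sum_congr rfl fun i _ => Finset.sum_congr rfl fun j _ => ?_
  rw [Finset.sum_comm]

/-- first Bianchi identity: the other pairing is twice `Q` -/
lemma H4_eq {q : ℕ} {w : Fin n → Fin n → Fin n → Fin n → ℝ} (h : IsCurv w)
    (ω : Form n (q + 2)) :
    ∑ i, ∑ j, ∑ k, ∑ l, w i j k l * Gm ω i j l k = 2 * QA w ω := by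
  -- write Q using Bianchi
  have hb : ∀ i j k l, w i j k l = - w j k i l - w k i j l := by
    intro i j k l
    have := h.bianchi i j k l
    linarith
  have e1 : ∑ i, ∑ j, ∑ k, ∑ l, w k i j l * Gm ω l j i k
      = - ∑ i, ∑ j, ∑ k, ∑ l, w i j k l * Gm ω i j l k := by
    rw [← rot3 (fun k i j l => w k i j l * Gm ω l j i k), ← Finset.sum_neg_distrib]
    refine Finset.sum_congr rfl fun i _ => ?_
    rw [← Finset.sum_neg_distrib]
    refine Finset.sum_congr rfl fun j _ => ?_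
    rw [← Finset.sum_neg_distrib]
    refine Finset.sum_congr rfl fun k _ => ?_
    rw [← Finset.sum_neg_distrib]
    refine Finset.sum_congr rfl fun l _ => ?_
    rw [Gm_comm, Gm_swap1]
    ring
  have e2 : ∑ i, ∑ j, ∑ k, ∑ l, w j k i l * Gm ω l j i k = QA w ω := by
    rw [rot3 (fun i j k l => w j k i l * Gm ω l j i k)]
    unfold QA
    rw [swap12]
    refine Finset.sum_congr rfl fun i _ => Finset.sum_congr rfl fun j _ =>
      Finset.sum_congr rfl fun k _ => Finset.sum_congr rfl fun l _ => ?_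
    rw [h.anti j i k l, Gm_swap2 ω l j k i]
    ring
  have e3 : QA w ω = - QA w ω + ∑ i, ∑ j, ∑ k, ∑ l, w i j k l * Gm ω i j l k := by
    conv_lhs => unfold QA
    have : ∀ i j k l, w i j k l * Gm ω l j i k
        = - (w j k i l * Gm ω l j i k) - w k i j l * Gm ω l j i k := by
      intro i j k l
      rw [hb i j k l]; ring
    simp_rw [this]
    simp only [Finset.sum_sub_distrib, Finset.sum_neg_distrib]
    rw [e1, e2]
    ring
  linarith

lemma MB_vec_nonneg {q : ℕ} (ω : Form n (q + 1)) (x : E n) : 0 ≤ MB ω x x :=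
  ip_self_nonneg _

/-- **Core inequality.** -/
theorem core {q : ℕ} {w : Fin n → Fin n → Fin n → Fin n → ℝ} (h : IsCurv w)
    (hpos : ∀ x v : Fin n → ℝ,
      0 ≤ ∑ j, ∑ k, v j * v k * (∑ i, ∑ l, x i * x l * w i j k l))
    (ω : Form n (q + 2)) (hq : q + 2 ≤ n) :
    0 ≤ 3 * (rA w ω - ((q : ℝ) + 1) * QA w ω)
      + (((n : ℝ) - (q + 2)) / n) * (scalA w * ip ω ω) := by
  have hn : (0 : ℝ) < n := by
    have : 0 < n := by omega
    exact_mod_cast this
  set α : ℝ := ((n : ℝ) - (q + 2)) / n with hαd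
  set β : ℝ := ((q : ℝ) + 2) / n with hβd
  have hα : 0 ≤ α := by
    apply div_nonneg _ hn.le
    have : ((q + 2 : ℕ) : ℝ) ≤ n := by exact_mod_cast hq
    push_cast at this
    linarith
  have hβ : 0 ≤ β := by positivity
  have hαβ : α + β = 1 := by
    rw [hαd, hβd]; field_simp; ring
  have hm := moment (κ := Fin n × Fin n) (fun m i l => w i m.1 m.2 l)
    (fun m a b => Ym ω α β a b m.1 m.2) (fun x => by
      rw [Fintype.sum_prod_type]
      refine sum_mul_nonneg (fun j k => ∑ i, ∑ l, x i * x l * w i j k l)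
        (fun j k => ∑ a, ∑ b, x a * x b * Ym ω α β a b j k) ?_ (hpos x) ?_
        (Y_nonneg ω α β hα hβ hαβ x)
      · intro j k
        rw [Finset.sum_comm]
        refine Finset.sum_congr rfl fun i _ => Finset.sum_congr rfl fun l _ => ?_
        rw [h.flip l j k i]; ring
      · intro j k
        rw [Ym_expand, Ym_expand, dl_comm j k, MB_comm ω (e j), MB_comm _ (e j)])
  rw [Fintype.sum_prod_type] at hm
  simp only at hm
  have hT1 : ∀ j k : Fin n, ∑ a, Ym ω α β a a j k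
      = α * (ip ω ω * dl j k) + (β * n - ((q : ℝ) + 1)) * MB ω (e j) (e k) := by
    intro j k
    unfold Ym
    rw [Finset.sum_sub_distrib, Finset.sum_add_distrib, ← Finset.mul_sum, ← Finset.mul_sum,
      ← Finset.mul_sum, ← Finset.sum_mul, ← Finset.sum_mul, trace_MB, Gm_trace]
    have : ∑ i : Fin n, dl i i = n := by simp [dl]
    rw [this]; ring
  have hfirst : ∑ j, ∑ k, (∑ i, w i j k i) * (∑ a, Ym ω α β a a j k)
      = α * (scalA w * ip ω ω) + (β * n - ((q : ℝ) + 1)) * rA w ω := by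
    simp_rw [hT1]
    have : ∀ j k : Fin n, (∑ i, w i j k i) *
        (α * (ip ω ω * dl j k) + (β * n - ((q : ℝ) + 1)) * MB ω (e j) (e k))
        = α * ip ω ω * (ricA w j k * dl j k)
          + (β * n - ((q : ℝ) + 1)) * (ricA w j k * MB ω (e j) (e k)) := by
      intro j k; unfold ricA; ring
    simp_rw [this, Finset.sum_add_distrib, ← Finset.mul_sum]
    have h1 : ∑ j, ∑ k, ricA w j k * dl j k = scalA w := by
      unfold scalA
      refine Finset.sum_congr rfl fun j _ => ?_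
      simp [dl]
    rw [h1]
    unfold rA
    ring
  have hsecond : ∑ j, ∑ k, ∑ i, ∑ l, w i j k l * (Ym ω α β i l j k + Ym ω α β l i j k)
      = (2 * α + 2 * β) * rA w ω - ((q : ℝ) + 1) * (3 * QA w ω) := by
    have hexp : ∀ j k i l : Fin n, w i j k l * (Ym ω α β i l j k + Ym ω α β l i j k)
        = 2 * α * (dl j k * w i j k l * MB ω (e i) (e l))
          + 2 * β * (dl i l * w i j k l * MB ω (e j) (e k))
          - ((q : ℝ) + 1) * (w i j k l * Gm ω i j l k)
          - ((q : ℝ) + 1) * (w i j k l * Gm ω l j i k) := by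
      intro j k i l
      unfold Ym
      rw [MB_comm ω (e l) (e i), dl_comm l i]
      ring
    simp_rw [hexp, Finset.sum_sub_distrib, Finset.sum_add_distrib, ← Finset.mul_sum]
    have s1 : ∑ j, ∑ k, ∑ i, ∑ l, dl j k * w i j k l * MB ω (e i) (e l) = rA w ω := by
      have a1 : ∀ j : Fin n, ∑ k, ∑ i, ∑ l, dl j k * w i j k l * MB ω (e i) (e l)
          = ∑ i, ∑ l, w i j j l * MB ω (e i) (e l) := by
        intro j
        rw [Finset.sum_eq_single j]
        · simp [dl]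
        · intro k _ hk
          simp [dl, Ne.symm hk]
        · simp
      simp_rw [a1]
      rw [Finset.sum_comm]
      unfold rA
      refine Finset.sum_congr rfl fun i _ => ?_
      rw [Finset.sum_comm]
      refine Finset.sum_congr rfl fun l _ => ?_
      rw [← Finset.sum_mul, ricA_eq h]
    have s2 : ∑ j, ∑ k, ∑ i, ∑ l, dl i l * w i j k l * MB ω (e j) (e k) = rA w ω := by
      unfold rA ricA
      refine Finset.sum_congr rfl fun j _ => Finset.sum_congr rfl fun k _ => ?_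
      rw [Finset.sum_mul]
      refine Finset.sum_congr rfl fun i _ => ?_
      simp [dl]
    have perm : ∀ f : Fin n → Fin n → Fin n → Fin n → ℝ,
        ∑ j, ∑ k, ∑ i, ∑ l, f i j k l = ∑ i, ∑ j, ∑ k, ∑ l, f i j k l := by
      intro f
      rw [rot3 (fun i j k l => f i j k l)]
    have s3 : ∑ j, ∑ k, ∑ i, ∑ l, w i j k l * Gm ω i j l k = 2 * QA w ω := by
      rw [perm (fun i j k l => w i j k l * Gm ω i j l k), H4_eq h]
    have s4 : ∑ j, ∑ k, ∑ i, ∑ l, w i j k l * Gm ω l j i k = QA w ω := by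
      rw [perm (fun i j k l => w i j k l * Gm ω l j i k)]; rfl
    rw [s1, s2, s3, s4]
    ring
  simp_rw [Finset.sum_add_distrib] at hm
  rw [hfirst, hsecond] at hm
  have hβn : β * n = (q : ℝ) + 2 := by rw [hβd]; field_simp
  have hfin : α * (scalA w * ip ω ω) + (β * n - ((q : ℝ) + 1)) * rA w ω
      + ((2 * α + 2 * β) * rA w ω - ((q : ℝ) + 1) * (3 * QA w ω))
      = 3 * (rA w ω - ((q : ℝ) + 1) * QA w ω) + α * (scalA w * ip ω ω) := by
    have : 2 * α + 2 * β = 2 := by linarith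
    rw [hβn, this]; ring
  rw [hfin] at hm
  exact hm

end Pool.Agent.H61.YP
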