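import Mathlib

/-!
Alternating forms on Euclidean space: the full inner product (sum over all
multi-indices), contraction, and the bound
`(q+1) |y ⌟ φ|^2 ≤ |y|^2 |φ|^2` in the full normalisation.
-/

namespace Pool.Agent.H61.YP

open scoped BigOperators RealInnerProductSpace

/-- Euclidean space. -/
abbrev E (n : ℕ) := EuclideanSpace ℝ (Fin n)

/-- The standard orthonormal vectors. -/
noncomputable def e {n : ℕ} (i : Fin n) : E n := EuclideanSpace.single i (1 : ℝ)

/-- Alternating `p`-forms on Euclidean space. -/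
abbrev Form (n p : ℕ) := (E n) [⋀^Fin p]→ₗ[ℝ] ℝ

variable {n : ℕ}

lemma sum_coord (x : E n) : ∑ i, x i • (e i : E n) = x := by
  ext j
  simp [e, Pi.single_apply]

lemma norm_sq (x : E n) : ‖x‖ ^ 2 = ∑ i, x i ^ 2 := by
  rw [EuclideanSpace.norm_eq, Real.sq_sqrt (Finset.sum_nonneg fun i _ => sq_nonneg _)]
  simp [sq_abs]

/-- Full inner product of two forms: sum over all multi-indices. -/
noncomputable def ip {q : ℕ} (φ ψ : Form n q) : ℝ :=
  ∑ J : Fin q → Fin n, φ (fun k => e (J k)) * ψ (fun k => e (J k))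

lemma ip_comm {q : ℕ} (φ ψ : Form n q) : ip φ ψ = ip ψ φ := by
  unfold ip; exact Finset.sum_congr rfl fun J _ => mul_comm _ _

lemma ip_self_nonneg {q : ℕ} (φ : Form n q) : 0 ≤ ip φ φ :=
  Finset.sum_nonneg fun J _ => mul_self_nonneg _

lemma ip_add_left {q : ℕ} (φ φ' ψ : Form n q) : ip (φ + φ') ψ = ip φ ψ + ip φ' ψ := by
  unfold ip
  rw [← Finset.sum_add_distrib]
  exact Finset.sum_congr rfl fun J _ => by simp [add_mul]

lemma ip_smul_left {q : ℕ} (c : ℝ) (φ ψ : Form n q) : ip (c • φ) ψ = c * ip φ ψ := by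
  unfold ip
  rw [Finset.mul_sum]
  exact Finset.sum_congr rfl fun J _ => by simp [mul_assoc]

/-- The full inner product as a bilinear map. -/
noncomputable def ipB (n q : ℕ) : Form n q →ₗ[ℝ] Form n q →ₗ[ℝ] ℝ :=
  LinearMap.mk₂ ℝ ip ip_add_left ip_smul_left
    (fun φ ψ ψ' => by rw [ip_comm, ip_add_left, ip_comm ψ, ip_comm ψ'])
    (fun c φ ψ => by rw [ip_comm, ip_smul_left, ip_comm ψ, smul_eq_mul])

@[simp] lemma ipB_apply {q : ℕ} (φ ψ : Form n q) : ipB n q φ ψ = ip φ ψ := rfl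

lemma ip_succ {q : ℕ} (φ ψ : Form n (q + 1)) :
    ip φ ψ = ∑ i, ip (φ.curryLeft (e i)) (ψ.curryLeft (e i)) := by
  unfold ip
  rw [← (Fin.consEquiv (fun _ : Fin (q + 1) => Fin n)).sum_comp, Fintype.sum_prod_type]
  refine Finset.sum_congr rfl fun i _ => Finset.sum_congr rfl fun J _ => ?_
  have h : (fun k => (e ((Fin.consEquiv (fun _ : Fin (q + 1) => Fin n)) (i, J) k) : E n))
      = Matrix.vecCons (e i) (fun k => e (J k)) := by
    ext k
    refine Fin.cases ?_ (fun k => ?_) k <;> simp [Fin.consEquiv, Matrix.vecCons]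
  rw [AlternatingMap.curryLeft_apply_apply, AlternatingMap.curryLeft_apply_apply, h]

/-- Contraction form `M(x,y) = ⟨x ⌟ ω, y ⌟ ω⟩` as a bilinear map. -/
noncomputable def MB {q : ℕ} (ω : Form n (q + 1)) : E n →ₗ[ℝ] E n →ₗ[ℝ] ℝ :=
  (ipB n q).compl₁₂ ω.curryLeft ω.curryLeft

lemma MB_apply {q : ℕ} (ω : Form n (q + 1)) (x y : E n) :
    MB ω x y = ip (ω.curryLeft x) (ω.curryLeft y) := rfl

lemma MB_comm {q : ℕ} (ω : Form n (q + 1)) (x y : E n) : MB ω x y = MB ω y x := by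
  rw [MB_apply, MB_apply, ip_comm]

lemma trace_MB {q : ℕ} (ω : Form n (q + 1)) : ∑ i, MB ω (e i) (e i) = ip ω ω := by
  rw [ip_succ]; rfl

lemma curry_swap {q : ℕ} (ω : Form n (q + 2)) (x y : E n) :
    (ω.curryLeft x).curryLeft y = - (ω.curryLeft y).curryLeft x := by
  have h := AlternatingMap.curryLeft_same ω (x + y)
  have hx := AlternatingMap.curryLeft_same ω x
  have hy := AlternatingMap.curryLeft_same ω y
  rw [map_add, map_add, AlternatingMap.curryLeft_add] at h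
  rw [LinearMap.add_apply, LinearMap.add_apply, hx, hy, zero_add, add_zero] at h
  exact eq_neg_of_add_eq_zero_right h

lemma bilin_expand (B : E n →ₗ[ℝ] E n →ₗ[ℝ] ℝ) (x y : E n) :
    B x y = ∑ i, ∑ j, x i * y j * B (e i) (e j) := by
  conv_lhs => rw [← sum_coord x, ← sum_coord y]
  simp only [map_sum, map_smul, LinearMap.sum_apply, LinearMap.smul_apply, smul_eq_mul]
  simp only [Finset.mul_sum]
  rw [Finset.sum_comm]
  refine Finset.sum_congr rfl fun i _ => Finset.sum_congr rfl fun j _ => ?_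
  ring

/-- the trace of a bilinear form after subtracting a direction -/
lemma trace_sub (B : E n →ₗ[ℝ] E n →ₗ[ℝ] ℝ) (hB : ∀ x y, B x y = B y x) (y : E n) :
    ∑ i, B (‖y‖ ^ 2 • e i - y i • y) (‖y‖ ^ 2 • e i - y i • y)
      = ‖y‖ ^ 4 * (∑ i, B (e i) (e i)) - ‖y‖ ^ 2 * B y y := by
  have h1 : ∑ i, y i * B (e i) y = B y y := by
    have : B y y = B (∑ i, y i • (e i : E n)) y := by rw [sum_coord]
    rw [this]
    simp only [map_sum, map_smul, LinearMap.sum_apply, LinearMap.smul_apply, smul_eq_mul]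
  have h2 : ∑ i, y i ^ 2 = ‖y‖ ^ 2 := (norm_sq y).symm
  have h3 : ∀ i, B (‖y‖ ^ 2 • e i - y i • y) (‖y‖ ^ 2 • e i - y i • y)
      = ‖y‖ ^ 4 * B (e i) (e i) - 2 * ‖y‖ ^ 2 * (y i * B (e i) y) + y i ^ 2 * B y y := by
    intro i
    simp only [map_sub, map_smul, LinearMap.sub_apply, LinearMap.smul_apply, smul_eq_mul]
    rw [hB y (e i)]
    ring
  simp_rw [h3]
  rw [Finset.sum_add_distrib, Finset.sum_sub_distrib, ← Finset.mul_sum, ← Finset.mul_sum,
    ← Finset.sum_mul, h1, h2]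
  ring

lemma cauchy_one (φ : Form n 1) (y : E n) :
    ip (φ.curryLeft y) (φ.curryLeft y) ≤ ‖y‖ ^ 2 * ip φ φ := by
  rw [ip_succ]
  have h0 : ∀ ψ : Form n 0, ip ψ ψ = ψ ![] ^ 2 := by
    intro ψ
    unfold ip
    rw [Fintype.sum_unique, sq]
    congr 1 <;> congr 1 <;> ext k <;> exact k.elim0
  simp only [h0]
  have h1 : φ.curryLeft y ![] = ∑ i, y i * φ.curryLeft (e i) ![] := by
    let L : E n →ₗ[ℝ] ℝ :=
      { toFun := fun x => φ.curryLeft x ![]
        map_add' := fun x y => by rw [map_add]; rfl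
        map_smul' := fun c x => by rw [map_smul]; rfl }
    have hL : L y = ∑ i, y i * L (e i) := by
      conv_lhs => rw [← sum_coord y]
      simp only [map_sum, map_smul, smul_eq_mul]
    exact hL
  rw [h1, norm_sq]
  exact Finset.sum_mul_sq_le_sq_mul_sq _ _ _

theorem pauli : ∀ (q : ℕ) (φ : Form n (q + 1)) (y : E n),
    ((q : ℝ) + 1) * ip (φ.curryLeft y) (φ.curryLeft y) ≤ ‖y‖ ^ 2 * ip φ φ := by
  intro q
  induction q with
  | zero => intro φ y; simpa using cauchy_one φ y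
  | succ q ih =>
    intro φ y
    by_cases hy : y = 0
    · subst hy
      have : φ.curryLeft (0 : E n) = 0 := map_zero _
      rw [this]
      simp [ip]
    have hy2 : 0 < ‖y‖ ^ 2 := by positivity
    set v : Fin n → E n := fun i => ‖y‖ ^ 2 • e i - y i • y with hv
    have hsum : ∑ i, MB φ (v i) (v i) = ‖y‖ ^ 4 * ip φ φ - ‖y‖ ^ 2 * MB φ y y := by
      rw [hv, trace_sub (MB φ) (MB_comm φ) y, trace_MB]
    have hsum2 : ∑ i, MB (φ.curryLeft y) (v i) (v i)
        = ‖y‖ ^ 4 * MB φ y y := by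
      rw [hv, trace_sub _ (MB_comm _) y, trace_MB]
      have : MB (φ.curryLeft y) y y = 0 := by
        rw [MB_apply, AlternatingMap.curryLeft_same]; simp [ip]
      rw [this, MB_apply]; ring
    have hterm : ∀ i, ((q : ℝ) + 1) * MB (φ.curryLeft y) (v i) (v i)
        ≤ ‖y‖ ^ 2 * MB φ (v i) (v i) := by
      intro i
      have h := ih (φ.curryLeft (v i)) y
      have hs : ip ((φ.curryLeft (v i)).curryLeft y) ((φ.curryLeft (v i)).curryLeft y)
          = MB (φ.curryLeft y) (v i) (v i) := by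
        rw [curry_swap, MB_apply]
        simp [ip]
      rw [hs] at h
      exact h
    have htot : ((q : ℝ) + 1) * (‖y‖ ^ 4 * MB φ y y)
        ≤ ‖y‖ ^ 2 * (‖y‖ ^ 4 * ip φ φ - ‖y‖ ^ 2 * MB φ y y) := by
      rw [← hsum, ← hsum2, Finset.mul_sum, Finset.mul_sum]
      exact Finset.sum_le_sum fun i _ => hterm i
    have h4 : 0 < ‖y‖ ^ 4 := by positivity
    have : ‖y‖ ^ 4 * (((q : ℝ) + 1 + 1) * MB φ y y) ≤ ‖y‖ ^ 4 * (‖y‖ ^ 2 * ip φ φ) := by
      nlinarith [htot]
    have h5 := le_of_mul_le_mul_left this h4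
    rw [MB_apply] at h5
    push_cast
    exact h5

end Pool.Agent.H61.YP
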