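import Pool.Agent.H61.YP.Weitz

/-!
The lower bound for the Weitzenböck curvature operator under nonnegative sectional
curvature, and its positivity under the scalar normalised pinching condition.
-/

namespace Pool.Agent.H61.YP

open scoped BigOperators RealInnerProductSpace

variable {n : ℕ}

namespace CurvTensor

lemma lin_sum (L : E n →ₗ[ℝ] ℝ) (x : E n) : L x = ∑ i, x i * L (e i) := by
  conv_lhs => rw [← sum_coord x]
  simp only [map_sum, map_smul, smul_eq_mul]

lemma expand (R : CurvTensor n) (x y z u : E n) :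
    R.toFun x y z u = ∑ i, ∑ j, ∑ k, ∑ l, x i * y j * z k * u l * R.comp i j k l := by
  have h1 : R.toFun x y z u = ∑ i, x i * R.toFun (e i) y z u := lin_sum (R.L1 y z u) x
  have h2 : ∀ i, R.toFun (e i) y z u = ∑ j, y j * R.toFun (e i) (e j) z u :=
    fun i => lin_sum (R.L2 (e i) z u) y
  have h3 : ∀ i j, R.toFun (e i) (e j) z u = ∑ k, z k * R.toFun (e i) (e j) (e k) u :=
    fun i j => lin_sum (R.L3 (e i) (e j) u) z
  have h4 : ∀ i j k, R.toFun (e i) (e j) (e k) u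
      = ∑ l, u l * R.toFun (e i) (e j) (e k) (e l) :=
    fun i j k => lin_sum (R.L4 (e i) (e j) (e k)) u
  rw [h1]
  refine Finset.sum_congr rfl fun i _ => ?_
  rw [h2, Finset.mul_sum]
  refine Finset.sum_congr rfl fun j _ => ?_
  rw [h3, Finset.mul_sum, Finset.mul_sum]
  refine Finset.sum_congr rfl fun k _ => ?_
  rw [h4, Finset.mul_sum, Finset.mul_sum, Finset.mul_sum]
  refine Finset.sum_congr rfl fun l _ => ?_
  unfold comp; ring

lemma left_same (R : CurvTensor n) (x z u : E n) : R.toFun x x z u = 0 := by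
  have := R.anti x x z u
  linarith

lemma right_same (R : CurvTensor n) (x y z : E n) : R.toFun x y z z = 0 := by
  rw [R.pair, left_same]

/-- from orthonormal pairs to all pairs -/
lemma sec_ext (R : CurvTensor n) (c : ℝ)
    (h : ∀ x y : E n, ‖x‖ = 1 → ‖y‖ = 1 → ⟪x, y⟫ = 0 → c ≤ R.toFun x y y x) (x y : E n) :
    c * (‖x‖ ^ 2 * ‖y‖ ^ 2 - ⟪x, y⟫ ^ 2) ≤ R.toFun x y y x := by
  by_cases hx : x = 0
  · subst hx
    have h0 : R.toFun 0 y y 0 = 0 := (R.L1 y y 0).map_zero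
    rw [h0]; simp
  have hx0 : 0 < ‖x‖ := norm_pos_iff.mpr hx
  set a : ℝ := ⟪x, y⟫ / ‖x‖ ^ 2 with ha
  set z : E n := y - a • x with hz
  have hxz : ⟪x, z⟫ = 0 := by
    rw [hz, inner_sub_right, inner_smul_right, real_inner_self_eq_norm_sq, ha]
    field_simp
    ring
  have hy : y = z + a • x := by rw [hz]; abel
  have hR : R.toFun x y y x = R.toFun x z z x := by
    rw [hy]
    simp only [R.add_two, R.smul_two, R.add_three, R.smul_three, R.left_same, R.right_same]
    ring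
  have hnorm : ‖x‖ ^ 2 * ‖y‖ ^ 2 - ⟪x, y⟫ ^ 2 = ‖x‖ ^ 2 * ‖z‖ ^ 2 := by
    have h1 : ‖y‖ ^ 2 = ‖z‖ ^ 2 + a ^ 2 * ‖x‖ ^ 2 := by
      rw [hy, ← real_inner_self_eq_norm_sq, inner_add_left, inner_add_right, inner_add_right,
        inner_smul_left, inner_smul_left, inner_smul_right, inner_smul_right,
        real_inner_comm x z, hxz, real_inner_self_eq_norm_sq, real_inner_self_eq_norm_sq]
      simp
      ring
    have h2 : ⟪x, y⟫ = a * ‖x‖ ^ 2 := by
      rw [ha]; field_simp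
    rw [h1, h2]; ring
  rw [hR, hnorm]
  by_cases hz0 : z = 0
  · rw [hz0]
    have h0 : R.toFun x 0 0 x = 0 := (R.L2 x 0 x).map_zero
    rw [h0]; simp
  have hz1 : 0 < ‖z‖ := norm_pos_iff.mpr hz0
  have h3 := h ((‖x‖)⁻¹ • x) ((‖z‖)⁻¹ • z) (by
      rw [norm_smul, norm_inv, norm_norm]; field_simp) (by
      rw [norm_smul, norm_inv, norm_norm]; field_simp) (by
      rw [inner_smul_left, inner_smul_right, hxz]; simp)
  simp only [R.smul_left, R.smul_two, R.smul_three, R.smul_four] at h3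
  have h4 : ‖x‖ ^ 2 * ‖z‖ ^ 2 * ((‖x‖)⁻¹ * ((‖z‖)⁻¹ * ((‖z‖)⁻¹ * ((‖x‖)⁻¹
      * R.toFun x z z x)))) = R.toFun x z z x := by
    field_simp
  have h5 := mul_le_mul_of_nonneg_left h3 (by positivity : 0 ≤ ‖x‖ ^ 2 * ‖z‖ ^ 2)
  calc c * (‖x‖ ^ 2 * ‖z‖ ^ 2) = ‖x‖ ^ 2 * ‖z‖ ^ 2 * c := by ring
    _ ≤ _ := h5
    _ = _ := h4

/-- the minimum of the sectional curvature is attained -/
lemma exists_min (R : CurvTensor n) (hn : 2 ≤ n) (c : ℝ)
    (h : ∀ x y : E n, ‖x‖ = 1 → ‖y‖ = 1 → ⟪x, y⟫ = 0 → c < R.toFun x y y x) :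
    ∃ c' > c, ∀ x y : E n, ‖x‖ = 1 → ‖y‖ = 1 → ⟪x, y⟫ = 0 → c' ≤ R.toFun x y y x := by
  let S : Set (E n × E n) :=
    (Metric.sphere (0 : E n) 1 ×ˢ Metric.sphere (0 : E n) 1) ∩ {z | ⟪z.1, z.2⟫ = 0}
  have hS : IsCompact S := by
    refine IsCompact.inter_right ((isCompact_sphere _ _).prod (isCompact_sphere _ _)) ?_
    exact isClosed_eq (by fun_prop) continuous_const
  have hne : S.Nonempty := by
    refine ⟨(e ⟨0, by omega⟩, e ⟨1, by omega⟩), ⟨?_, ?_⟩, ?_⟩
    · simp [e]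
    · simp [e]
    · simp [e, EuclideanSpace.inner_single_left]
  have hcont : ContinuousOn (fun z : E n × E n => R.toFun z.1 z.2 z.2 z.1) S := by
    apply Continuous.continuousOn
    have : (fun z : E n × E n => R.toFun z.1 z.2 z.2 z.1)
        = fun z : E n × E n => ∑ i, ∑ j, ∑ k, ∑ l,
            z.1 i * z.2 j * z.2 k * z.1 l * R.comp i j k l := by
      funext z; exact R.expand _ _ _ _
    rw [this]
    fun_prop
  obtain ⟨z, hz, hmin⟩ := hS.exists_isMinOn hne hcont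
  refine ⟨R.toFun z.1 z.2 z.2 z.1, ?_, ?_⟩
  · have h1 : ‖z.1‖ = 1 := by simpa using hz.1.1
    have h2 : ‖z.2‖ = 1 := by simpa using hz.1.2
    exact h z.1 z.2 h1 h2 hz.2
  · intro x y hx hy hxy
    have hmem : (x, y) ∈ S := ⟨⟨by simpa using hx, by simpa using hy⟩, hxy⟩
    exact hmin hmem

/-- components of `R - c Id` -/
noncomputable def wA (R : CurvTensor n) (c : ℝ) (i j k l : Fin n) : ℝ :=
  R.comp i j k l - c * (dl j k * dl i l - dl i k * dl j l)

lemma wA_isCurv (R : CurvTensor n) (c : ℝ) : IsCurv (R.wA c) := by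
  refine ⟨fun i j k l => ?_, fun i j k l => ?_, fun i j k l => ?_⟩
  · unfold wA; rw [R.isCurv.anti i j k l]; ring
  · unfold wA; rw [R.isCurv.pair i j k l, dl_comm j k, dl_comm i l, dl_comm i k, dl_comm j l]
    ring
  · unfold wA
    have h := R.isCurv.bianchi i j k l
    have e1 := dl_comm i k
    have e2 := dl_comm j k
    have e3 := dl_comm i j
    rw [e1, e2, e3] at *
    linear_combination h

lemma wA_pos (R : CurvTensor n) (c : ℝ)
    (h : ∀ x y : E n, c * (‖x‖ ^ 2 * ‖y‖ ^ 2 - ⟪x, y⟫ ^ 2) ≤ R.toFun x y y x)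
    (x v : Fin n → ℝ) :
    0 ≤ ∑ j, ∑ k, v j * v k * (∑ i, ∑ l, x i * x l * R.wA c i j k l) := by
  have h1 := h (vec x) (vec v)
  rw [R.expand] at h1
  have h2 : ‖vec x‖ ^ 2 = ∑ i, ∑ l, x i * x l * dl i l := by
    rw [norm_sq]
    refine Finset.sum_congr rfl fun a _ => ?_
    simp [dl, sq]
  have h3 : ‖vec v‖ ^ 2 = ∑ j, ∑ k, v j * v k * dl j k := by
    rw [norm_sq]
    refine Finset.sum_congr rfl fun a _ => ?_
    simp [dl, sq]
  have h4 : ⟪vec x, vec v⟫ = ∑ i, x i * v i := by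
    simp [PiLp.inner_apply, mul_comm]
  have h5 : ∑ j, ∑ k, v j * v k * (∑ i, ∑ l, x i * x l * R.wA c i j k l)
      = (∑ i, ∑ j, ∑ k, ∑ l, vec x i * vec v j * vec v k * vec x l * R.comp i j k l)
        - c * (‖vec x‖ ^ 2 * ‖vec v‖ ^ 2 - ⟪vec x, vec v⟫ ^ 2) := by
    have g1 : ∑ j, ∑ k, v j * v k * (∑ i, ∑ l, x i * x l * R.wA c i j k l)
        = ∑ j, ∑ k, ∑ i, ∑ l, x i * v j * v k * x l * R.comp i j k l
          - ∑ j, ∑ k, ∑ i, ∑ l, c * ((x i * x l * dl i l) * (v j * v k * dl j k))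
          + ∑ j, ∑ k, ∑ i, ∑ l, c * ((x i * v k * dl i k) * (x l * v j * dl j l)) := by
      rw [← Finset.sum_sub_distrib, ← Finset.sum_add_distrib]
      refine Finset.sum_congr rfl fun j _ => ?_
      rw [← Finset.sum_sub_distrib, ← Finset.sum_add_distrib]
      refine Finset.sum_congr rfl fun k _ => ?_
      rw [← Finset.sum_sub_distrib, ← Finset.sum_add_distrib, Finset.mul_sum]
      refine Finset.sum_congr rfl fun i _ => ?_
      rw [← Finset.sum_sub_distrib, ← Finset.sum_add_distrib, Finset.mul_sum]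
      refine Finset.sum_congr rfl fun l _ => ?_
      unfold wA; ring
    have g2 : ∑ j, ∑ k, ∑ i, ∑ l, c * ((x i * x l * dl i l) * (v j * v k * dl j k))
        = c * (‖vec x‖ ^ 2 * ‖vec v‖ ^ 2) := by
      have t : ∀ j k : Fin n, ∑ i, ∑ l, c * ((x i * x l * dl i l) * (v j * v k * dl j k))
          = c * (∑ i, ∑ l, x i * x l * dl i l) * (v j * v k * dl j k) := by
        intro j k
        simp only [Finset.mul_sum, Finset.sum_mul]
        refine Finset.sum_congr rfl fun i _ => Finset.sum_congr rfl fun l _ => ?_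
        ring
      simp_rw [t, ← Finset.mul_sum]
      rw [h2, h3]; ring
    have g3 : ∑ j, ∑ k, ∑ i, ∑ l, c * ((x i * v k * dl i k) * (x l * v j * dl j l))
        = c * ⟪vec x, vec v⟫ ^ 2 := by
      rw [h4, sq, Finset.sum_mul_sum, Finset.mul_sum]
      refine Finset.sum_congr rfl fun j _ => ?_
      rw [Finset.mul_sum]
      refine Finset.sum_congr rfl fun k _ => ?_
      rw [Finset.sum_eq_single k, Finset.sum_eq_single j]
      · simp only [dl, if_true]; ring
      · intro l _ hl; simp [dl, Ne.symm hl]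
      · simp
      · intro i _ hi; simp [dl, hi]
      · simp
    have g4 : ∑ j, ∑ k, ∑ i, ∑ l, x i * v j * v k * x l * R.comp i j k l
        = ∑ i, ∑ j, ∑ k, ∑ l, vec x i * vec v j * vec v k * vec x l * R.comp i j k l := by
      rw [rot3 (fun i j k l => vec x i * vec v j * vec v k * vec x l * R.comp i j k l)]
      rfl
    rw [g1, g2, g3, g4]; ring
  rw [h5]
  linarith

lemma sum_dl (j : Fin n) (f : Fin n → ℝ) : ∑ k, dl j k * f k = f j := by
  simp [dl]

lemma ricA_wA (R : CurvTensor n) (c : ℝ) (j k : Fin n) :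
    ricA (R.wA c) j k = ricA R.comp j k - c * (((n : ℝ) - 1) * dl j k) := by
  unfold ricA wA
  rw [Finset.sum_sub_distrib, ← Finset.mul_sum, Finset.sum_sub_distrib, ← Finset.mul_sum]
  have h1 : ∑ i : Fin n, dl i i = (n : ℝ) := by simp [dl]
  have h2 : ∑ i : Fin n, dl i k * dl j i = dl j k := by
    rw [Finset.sum_eq_single j]
    · simp [dl]
    · intro i _ hi; simp [dl, Ne.symm hi]
    · simp
  rw [h1, h2]; ring

lemma scalA_wA (R : CurvTensor n) (c : ℝ) :
    scalA (R.wA c) = scalA R.comp - c * ((n : ℝ) * (n - 1)) := by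
  unfold scalA
  simp_rw [ricA_wA]
  rw [Finset.sum_sub_distrib]
  have h1 : ∑ j : Fin n, c * (((n : ℝ) - 1) * dl j j) = c * ((n : ℝ) * (n - 1)) := by
    simp [dl]; ring
  rw [h1]

lemma rA_wA {q : ℕ} (R : CurvTensor n) (c : ℝ) (ω : Form n (q + 1)) :
    rA (R.wA c) ω = rA R.comp ω - c * (((n : ℝ) - 1) * ip ω ω) := by
  unfold rA
  simp_rw [ricA_wA]
  have h1 : ∀ j k : Fin n, (ricA R.comp j k - c * (((n : ℝ) - 1) * dl j k)) * MB ω (e j) (e k)
      = ricA R.comp j k * MB ω (e j) (e k)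
        - c * ((n : ℝ) - 1) * (dl j k * MB ω (e j) (e k)) := by
    intro j k; ring
  simp_rw [h1, Finset.sum_sub_distrib, ← Finset.mul_sum]
  have h2 : ∑ j : Fin n, ∑ k, dl j k * MB ω (e j) (e k) = ip ω ω := by
    rw [← trace_MB]
    refine Finset.sum_congr rfl fun j _ => ?_
    rw [sum_dl j (fun k => MB ω (e j) (e k))]
  rw [h2]; ring

lemma QA_wA {q : ℕ} (R : CurvTensor n) (c : ℝ) (ω : Form n (q + 2)) :
    QA (R.wA c) ω = QA R.comp ω - c * ip ω ω := by
  unfold QA wA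
  have h1 : ∀ i j k l : Fin n, (R.comp i j k l - c * (dl j k * dl i l - dl i k * dl j l))
        * Gm ω l j i k
      = R.comp i j k l * Gm ω l j i k - c * (dl j k * (dl i l * Gm ω l j i k))
        + c * (dl i k * (dl j l * Gm ω l j i k)) := by
    intro i j k l; ring
  simp_rw [h1, Finset.sum_add_distrib, Finset.sum_sub_distrib, ← Finset.mul_sum]
  have h2 : ∑ i : Fin n, ∑ j, ∑ k, dl j k * ∑ l, dl i l * Gm ω l j i k = ip ω ω := by
    have t : ∀ i j : Fin n, ∑ k, dl j k * ∑ l, dl i l * Gm ω l j i k = Gm ω i j i j := by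
      intro i j
      rw [sum_dl j (fun k => ∑ l, dl i l * Gm ω l j i k), sum_dl i (fun l => Gm ω l j i j)]
    simp_rw [t]
    rw [Finset.sum_comm]
    simp_rw [Gm_trace]
    exact trace_MB ω
  have h3 : ∑ i : Fin n, ∑ j, ∑ k, dl i k * ∑ l, dl j l * Gm ω l j i k = 0 := by
    refine Finset.sum_eq_zero fun i _ => Finset.sum_eq_zero fun j _ => ?_
    rw [sum_dl i (fun k => ∑ l, dl j l * Gm ω l j i k), sum_dl j (fun l => Gm ω l j i i)]
    have := Gm_swap1 ω j j i i
    linarith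
  rw [h2, h3]; ring

/-- lower bound with a lower bound `c` for the sectional curvature, degree at least two -/
theorem lower_two {q : ℕ} (R : CurvTensor n) (c : ℝ)
    (h : ∀ x y : E n, c * (‖x‖ ^ 2 * ‖y‖ ^ 2 - ⟪x, y⟫ ^ 2) ≤ R.toFun x y y x)
    (ω : Form n (q + 2)) (hq : q + 2 ≤ n) :
    ((q : ℝ) + 2) * ((n : ℝ) - (q + 2)) / (3 * n) * ((n * (n + 2) * c - R.scal) * ip ω ω)
      ≤ R.weitzForm ω := by
  have hn : (0 : ℝ) < n := by
    have : 0 < n := by omega
    exact_mod_cast this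
  have hc := core (R.wA_isCurv c) (R.wA_pos c h) ω hq
  rw [rA_wA, QA_wA, scalA_wA, ← scal_eq] at hc
  rw [weitzForm_comp]
  have hq0 : (0 : ℝ) ≤ (q : ℝ) + 2 := by positivity
  have h1 := mul_le_mul_of_nonneg_left hc hq0
  rw [mul_zero] at h1
  have h2 : ((q : ℝ) + 2) * (3 * (rA R.comp ω - c * (((n : ℝ) - 1) * ip ω ω)
        - ((q : ℝ) + 1) * (QA R.comp ω - c * ip ω ω))
      + ((n : ℝ) - (q + 2)) / n * ((R.scal - c * ((n : ℝ) * (n - 1))) * ip ω ω))
      = 3 * (((q : ℝ) + 2) * (rA R.comp ω - ((q : ℝ) + 1) * QA R.comp ω)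
        - ((q : ℝ) + 2) * ((n : ℝ) - (q + 2)) / (3 * n)
          * ((n * (n + 2) * c - R.scal) * ip ω ω)) := by
    field_simp
    ring
  rw [h2] at h1
  linarith

lemma ip_zero_deg (φ ψ : Form n 0) : ip φ ψ = φ ![] * ψ ![] := by
  unfold ip
  rw [Fintype.sum_unique]
  congr 1 <;> congr 1 <;> ext k <;> exact k.elim0

/-- degree one -/
theorem lower_one (R : CurvTensor n) (c : ℝ)
    (h : ∀ x y : E n, c * (‖x‖ ^ 2 * ‖y‖ ^ 2 - ⟪x, y⟫ ^ 2) ≤ R.toFun x y y x)
    (ω : Form n 1) (hq : 1 ≤ n) :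
    ((n : ℝ) - 1) / (3 * n) * ((n * (n + 2) * c - R.scal) * ip ω ω)
      ≤ R.weitzForm ω := by
  have hn : (0 : ℝ) < n := by
    have : 0 < n := by omega
    exact_mod_cast this
  have hn1 : (1 : ℝ) ≤ n := by exact_mod_cast hq
  have hpos := R.wA_pos c h
  have hi : ∀ (i : Fin n) (v : Fin n → ℝ), 0 ≤ ∑ j, ∑ k, v j * v k * R.wA c i j k i := by
    intro i v
    have := hpos (fun m => if m = i then 1 else 0) v
    simpa using this
  have hr : 0 ≤ rA (R.wA c) ω := by
    unfold rA ricA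
    have : ∀ j k : Fin n, (∑ i, R.wA c i j k i) * MB ω (e j) (e k)
        = ∑ i, ω.curryLeft (e j) ![] * ω.curryLeft (e k) ![] * R.wA c i j k i := by
      intro j k
      rw [MB_apply, ip_zero_deg, Finset.sum_mul]
      refine Finset.sum_congr rfl fun i _ => ?_
      ring
    simp_rw [this]
    rw [← comm2 (fun i j k => ω.curryLeft (e j) ![] * ω.curryLeft (e k) ![] * R.wA c i j k i)]
    exact Finset.sum_nonneg fun i _ => hi i (fun j => ω.curryLeft (e j) ![])
  have hs : 0 ≤ scalA (R.wA c) := by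
    unfold scalA ricA
    refine Finset.sum_nonneg fun j _ => Finset.sum_nonneg fun i _ => ?_
    have := hi i (fun m => if m = j then 1 else 0)
    simpa using this
  rw [rA_wA] at hr
  rw [scalA_wA, ← scal_eq] at hs
  rw [weitzForm_one]
  have hN : 0 ≤ ip ω ω := ip_self_nonneg ω
  have h1 : ((n : ℝ) * (n + 2) * c - R.scal) * ip ω ω ≤ (3 * n * c) * ip ω ω := by
    apply mul_le_mul_of_nonneg_right _ hN
    nlinarith
  have h2 : ((n : ℝ) - 1) / (3 * n) * ((n * (n + 2) * c - R.scal) * ip ω ω)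
      ≤ ((n : ℝ) - 1) / (3 * n) * ((3 * n * c) * ip ω ω) := by
    apply mul_le_mul_of_nonneg_left h1
    apply div_nonneg <;> linarith
  have h3 : ((n : ℝ) - 1) / (3 * n) * ((3 * n * c) * ip ω ω) = c * (((n : ℝ) - 1) * ip ω ω) := by
    field_simp
  rw [h3] at h2
  linarith

/-- **Lower bound for the Weitzenböck curvature operator on `p`-forms.** -/
theorem lower (R : CurvTensor n) (c : ℝ)
    (h : ∀ x y : E n, ‖x‖ = 1 → ‖y‖ = 1 → ⟪x, y⟫ = 0 → c ≤ R.toFun x y y x)
    (p : ℕ) (hp : 0 < p) (hpn : p ≤ n) (ω : Form n p) :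
    (p : ℝ) * ((n : ℝ) - p) / (3 * n) * ((n * (n + 2) * c - R.scal) * ip ω ω)
      ≤ R.weitzForm ω := by
  have h' := R.sec_ext c h
  rcases p with _ | _ | q
  · exact absurd hp (lt_irrefl 0)
  · have := R.lower_one c h' ω hpn
    refine le_of_eq_of_le ?_ this
    push_cast
    ring
  · have := R.lower_two c h' ω hpn
    refine le_of_eq_of_le ?_ this
    push_cast
    ring

lemma ip_pos {p : ℕ} (ω : Form n p) (hω : ω ≠ 0) : 0 < ip ω ω := by
  refine lt_of_le_of_ne (ip_self_nonneg ω) fun h0 => hω ?_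
  have hz : ∀ J : Fin p → Fin n, ω (fun k => e (J k)) = 0 := by
    intro J
    have := (Finset.sum_eq_zero_iff_of_nonneg (s := Finset.univ)
      (f := fun J : Fin p → Fin n => ω (fun k => e (J k)) * ω (fun k => e (J k)))
      (fun J _ => mul_self_nonneg _)).mp h0.symm J (Finset.mem_univ J)
    exact mul_self_eq_zero.mp this
  refine Module.Basis.ext_alternating (EuclideanSpace.basisFun (Fin n) ℝ).toBasis fun v _ => ?_
  have : ∀ i, (EuclideanSpace.basisFun (Fin n) ℝ).toBasis i = (e i : E n) := by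
    intro i; simp [e]
  simp only [this]
  rw [hz]; rfl

/-- **Positivity under the pinching condition.** -/
theorem pinched (R : CurvTensor n) (p : ℕ) (hp : 0 < p) (hpn : p < n)
    (h : ∀ x y : E n, ‖x‖ = 1 → ‖y‖ = 1 → ⟪x, y⟫ = 0 →
      R.scal / (n * (n + 2)) < R.toFun x y y x)
    (ω : Form n p) (hω : ω ≠ 0) : 0 < R.weitzForm ω := by
  obtain ⟨c, hc, hmin⟩ := R.exists_min (by omega) _ h
  have h1 := R.lower c hmin p hp hpn.le ω
  refine lt_of_lt_of_le ?_ h1
  have hn : (0 : ℝ) < n := by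
    have : 0 < n := by omega
    exact_mod_cast this
  have hp' : (0 : ℝ) < p := by exact_mod_cast hp
  have hpn' : (0 : ℝ) < (n : ℝ) - p := by
    have : (p : ℝ) < n := by exact_mod_cast hpn
    linarith
  have h2 : 0 < (n : ℝ) * (n + 2) * c - R.scal := by
    have := (div_lt_iff₀ (by positivity : (0 : ℝ) < n * (n + 2))).mp hc
    linarith
  have h3 := ip_pos ω hω
  positivity

end CurvTensor

end Pool.Agent.H61.YP
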