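import Pool.Agent.H61.YP.Core

/-!
Algebraic curvature tensors, the Weitzenböck curvature operator on `p`-forms, and its
quadratic form in components.
-/

namespace Pool.Agent.H61.YP

open scoped BigOperators RealInnerProductSpace

variable {n : ℕ}

/-- An algebraic curvature tensor on `E n`: a 4-linear form with the symmetries of the
Riemann tensor (linearity in the last three places follows from the symmetries), in the sign
convention in which the sectional curvature of the plane spanned by orthonormal `x, y` is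
`R x y y x`. -/
structure CurvTensor (n : ℕ) where
  /-- the 4-linear form -/
  toFun : E n → E n → E n → E n → ℝ
  add_left : ∀ x x' y z u, toFun (x + x') y z u = toFun x y z u + toFun x' y z u
  smul_left : ∀ (a : ℝ) (x y z u : E n), toFun (a • x) y z u = a * toFun x y z u
  anti : ∀ x y z u, toFun x y z u = - toFun y x z u
  pair : ∀ x y z u, toFun x y z u = toFun z u x y
  bianchi : ∀ x y z u, toFun x y z u + toFun y z x u + toFun z x y u = 0

namespace CurvTensor

lemma add_two (R : CurvTensor n) (x y y' z u : E n) :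
    R.toFun x (y + y') z u = R.toFun x y z u + R.toFun x y' z u := by
  rw [R.anti, R.add_left, R.anti x y, R.anti x y']; ring

lemma smul_two (R : CurvTensor n) (a : ℝ) (x y z u : E n) :
    R.toFun x (a • y) z u = a * R.toFun x y z u := by
  rw [R.anti, R.smul_left, R.anti x y]; ring

lemma add_three (R : CurvTensor n) (x y z z' u : E n) :
    R.toFun x y (z + z') u = R.toFun x y z u + R.toFun x y z' u := by
  rw [R.pair, R.add_left, R.pair x y, R.pair x y z']

lemma smul_three (R : CurvTensor n) (a : ℝ) (x y z u : E n) :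
    R.toFun x y (a • z) u = a * R.toFun x y z u := by
  rw [R.pair, R.smul_left, R.pair x y]

lemma add_four (R : CurvTensor n) (x y z u u' : E n) :
    R.toFun x y z (u + u') = R.toFun x y z u + R.toFun x y z u' := by
  rw [R.pair, R.add_two, R.pair x y, R.pair x y z u']

lemma smul_four (R : CurvTensor n) (a : ℝ) (x y z u : E n) :
    R.toFun x y z (a • u) = a * R.toFun x y z u := by
  rw [R.pair, R.smul_two, R.pair x y]

/-- the first place as a linear form -/
noncomputable def L1 (R : CurvTensor n) (y z u : E n) : E n →ₗ[ℝ] ℝ where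
  toFun x := R.toFun x y z u
  map_add' x x' := R.add_left x x' y z u
  map_smul' a x := R.smul_left a x y z u

/-- the second place as a linear form -/
noncomputable def L2 (R : CurvTensor n) (x z u : E n) : E n →ₗ[ℝ] ℝ where
  toFun y := R.toFun x y z u
  map_add' y y' := R.add_two x y y' z u
  map_smul' a y := R.smul_two a x y z u

/-- the third place as a linear form -/
noncomputable def L3 (R : CurvTensor n) (x y u : E n) : E n →ₗ[ℝ] ℝ where
  toFun z := R.toFun x y z u
  map_add' z z' := R.add_three x y z z' u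
  map_smul' a z := R.smul_three a x y z u

/-- the fourth place as a linear form -/
noncomputable def L4 (R : CurvTensor n) (x y z : E n) : E n →ₗ[ℝ] ℝ where
  toFun u := R.toFun x y z u
  map_add' u u' := R.add_four x y z u u'
  map_smul' a u := R.smul_four a x y z u

/-- scalar curvature: the sum of the sectional curvatures over all ordered pairs of basis
vectors -/
noncomputable def scal (R : CurvTensor n) : ℝ := ∑ i, ∑ j, R.toFun (e i) (e j) (e j) (e i)

/-- the curvature operator: `⟨R(x,y)z, u⟩ = R x y z u` -/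
noncomputable def op (R : CurvTensor n) (x y z : E n) : E n :=
  ∑ i, R.toFun x y z (e i) • e i

/-- the action of the skew endomorphism `R(x,y)` on a form as a derivation:
`(R(x,y) ω)(v_1,…,v_p) = - ∑_b ω(v_1,…,R(x,y)v_b,…,v_p)` -/
noncomputable def act {p : ℕ} (R : CurvTensor n) (ω : Form n p) (x y : E n)
    (v : Fin p → E n) : ℝ :=
  - ∑ b, ω (Function.update v b (R.op x y (v b)))

/-- the Weitzenböck curvature operator on `p`-forms:
`(Ric ω)(v_1,…,v_p) = ∑_a ∑_i (R(e_i, v_a) ω)(v_1,…,e_i,…,v_p)`, `e_i` in place `a` -/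
noncomputable def weitz {p : ℕ} (R : CurvTensor n) (ω : Form n p) (v : Fin p → E n) : ℝ :=
  ∑ a, ∑ i, R.act ω (e i) (v a) (Function.update v a (e i))

/-- the quadratic form `⟨Ric ω, ω⟩` of the Weitzenböck curvature operator (sum over all
multi-indices) -/
noncomputable def weitzForm {p : ℕ} (R : CurvTensor n) (ω : Form n p) : ℝ :=
  ∑ I : Fin p → Fin n, R.weitz ω (fun k => e (I k)) * ω (fun k => e (I k))

/-- components -/
noncomputable def comp (R : CurvTensor n) (i j k l : Fin n) : ℝ :=
  R.toFun (e i) (e j) (e k) (e l)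

lemma isCurv (R : CurvTensor n) : IsCurv R.comp :=
  ⟨fun i j k l => R.anti _ _ _ _, fun i j k l => R.pair _ _ _ _,
    fun i j k l => R.bianchi _ _ _ _⟩

lemma scal_eq (R : CurvTensor n) : R.scal = scalA R.comp := by
  unfold scal scalA ricA comp
  rw [Finset.sum_comm]

/-- the contribution of the ordered pair of positions `(a, b)` -/
noncomputable def P {p : ℕ} (R : CurvTensor n) (ω : Form n p) (a b : Fin p) : ℝ :=
  ∑ I : Fin p → Fin n, ∑ i, - (ω (Function.update (Function.update (fun k => e (I k)) a (e i)) b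
    (R.op (e i) (e (I a)) (Function.update (fun k => (e (I k) : E n)) a (e i) b)))
      * ω (fun k => e (I k)))

lemma weitzForm_eq {p : ℕ} (R : CurvTensor n) (ω : Form n p) :
    R.weitzForm ω = ∑ a, ∑ b, R.P ω a b := by
  unfold weitzForm weitz act P
  have h1 : ∀ I : Fin p → Fin n,
      (∑ a, ∑ i, - ∑ b, ω (Function.update (Function.update (fun k => e (I k)) a (e i)) b
        (R.op (e i) (e (I a)) (Function.update (fun k => (e (I k) : E n)) a (e i) b))))
          * ω (fun k => e (I k))
      = ∑ a, ∑ b, ∑ i, -(ω (Function.update (Function.update (fun k => e (I k)) a (e i)) b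
        (R.op (e i) (e (I a)) (Function.update (fun k => (e (I k) : E n)) a (e i) b)))
          * ω (fun k => e (I k))) := by
    intro I
    rw [Finset.sum_mul]
    refine Finset.sum_congr rfl fun a _ => ?_
    rw [Finset.sum_mul, Finset.sum_comm]
    refine Finset.sum_congr rfl fun i _ => ?_
    rw [neg_mul, Finset.sum_mul, Finset.sum_neg_distrib]
  simp_rw [h1]
  rw [Finset.sum_comm]
  refine Finset.sum_congr rfl fun a _ => ?_
  rw [Finset.sum_comm]

lemma P_perm {p : ℕ} (R : CurvTensor n) (ω : Form n p) (σ : Equiv.Perm (Fin p)) (a b : Fin p) :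
    R.P ω (σ a) (σ b) = R.P ω a b := by
  unfold P
  symm
  rw [← (Equiv.arrowCongr σ (Equiv.refl (Fin n))).symm.sum_comp]
  refine Finset.sum_congr rfl fun I _ => Finset.sum_congr rfl fun i _ => ?_
  have h0 : ∀ k, (Equiv.arrowCongr σ (Equiv.refl (Fin n))).symm I k = I (σ k) := by
    intro k; rfl
  simp only [h0]
  have hu : ∀ (f : Fin p → E n) (c : Fin p) (z : E n),
      Function.update (fun k => f (σ k)) c z = (Function.update f (σ c) z) ∘ σ := by
    intro f c z
    have := Function.update_comp_equiv f σ (σ c) z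
    rw [Equiv.symm_apply_apply] at this
    exact this.symm
  have e1 : Function.update (fun k => (e (I (σ k)) : E n)) a (e i)
      = (Function.update (fun k => e (I k)) (σ a) (e i)) ∘ σ := hu (fun k => e (I k)) a (e i)
  rw [e1]
  have e2 : ∀ z, Function.update
      ((Function.update (fun k => (e (I k) : E n)) (σ a) (e i)) ∘ σ) b z
      = (Function.update (Function.update (fun k => e (I k)) (σ a) (e i)) (σ b) z) ∘ σ :=
    fun z => hu (Function.update (fun k => (e (I k) : E n)) (σ a) (e i)) b z
  rw [e2]
  have e3 : (fun k => (e (I (σ k)) : E n)) = (fun k => e (I k)) ∘ σ := rfl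
  rw [e3, AlternatingMap.map_perm, AlternatingMap.map_perm]
  simp only [Function.comp_apply]
  rcases Int.units_eq_one_or (Equiv.Perm.sign σ) with h | h <;> rw [h] <;> simp

lemma P_diag {p : ℕ} (R : CurvTensor n) (ω : Form n (p + 1)) (a : Fin (p + 1)) :
    R.P ω a a = R.P ω 0 0 := by
  have := P_perm R ω (Equiv.swap 0 a) 0 0
  simpa using this

lemma P_off {p : ℕ} (R : CurvTensor n) (ω : Form n (p + 2)) (a b : Fin (p + 2)) (hab : a ≠ b) :
    R.P ω a b = R.P ω 0 1 := by
  -- a permutation carrying 0 to a and 1 to b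
  let τ : Equiv.Perm (Fin (p + 2)) := Equiv.swap 0 a
  let c := τ.symm b
  have hc : c ≠ 0 := by
    intro h
    have : b = τ 0 := by rw [← h]; simp [c]
    rw [this] at hab
    simp [τ] at hab
  let ρ : Equiv.Perm (Fin (p + 2)) := Equiv.swap 1 c
  have h0 : ρ 0 = 0 := by
    apply Equiv.swap_apply_of_ne_of_ne
    · exact (Fin.zero_ne_one)
    · exact Ne.symm hc
  have h1 : ρ 1 = c := Equiv.swap_apply_left _ _
  have := P_perm R ω (ρ.trans τ) 0 1
  rw [← this]
  congr 1
  · simp [h0, τ]
  · simp [h1, c]

lemma sum_P {p : ℕ} (R : CurvTensor n) (ω : Form n (p + 2)) :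
    ∑ a, ∑ b, R.P ω a b
      = ((p : ℝ) + 2) * (R.P ω 0 0 + ((p : ℝ) + 1) * R.P ω 0 1) := by
  have h : ∀ a : Fin (p + 2), ∑ b, R.P ω a b = R.P ω 0 0 + ((p : ℝ) + 1) * R.P ω 0 1 := by
    intro a
    rw [← Finset.add_sum_erase _ _ (Finset.mem_univ a), P_diag]
    congr 1
    rw [Finset.sum_congr rfl (g := fun _ => R.P ω 0 1)
      (fun b hb => P_off R ω a b (Ne.symm (Finset.ne_of_mem_erase hb)))]
    rw [Finset.sum_const, Finset.card_erase_of_mem (Finset.mem_univ a)]
    simp
  rw [Finset.sum_congr rfl fun a _ => h a]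
  rw [Finset.sum_const]
  simp
  ring

lemma op_inner (R : CurvTensor n) {q : ℕ} (ω : Form n (q + 1)) (x y z u : E n) :
    MB ω (R.op x y z) u = ∑ l, R.toFun x y z (e l) * MB ω (e l) u := by
  unfold op
  simp only [map_sum, map_smul, LinearMap.sum_apply, LinearMap.smul_apply, smul_eq_mul]

lemma P_zero_zero {q : ℕ} (R : CurvTensor n) (ω : Form n (q + 1)) :
    R.P ω 0 0 = rA R.comp ω := by
  have h1 : R.P ω 0 0 = ∑ j, ∑ i, - MB ω (R.op (e i) (e j) (e i)) (e j) := by
    unfold P
    rw [← (Fin.consEquiv (fun _ : Fin (q + 1) => Fin n)).sum_comp, Fintype.sum_prod_type]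
    refine Finset.sum_congr rfl fun j _ => ?_
    rw [Finset.sum_comm]
    refine Finset.sum_congr rfl fun i _ => ?_
    rw [MB_apply, ip, ← Finset.sum_neg_distrib]
    refine Finset.sum_congr rfl fun J _ => ?_
    have hv : (fun k => (e ((Fin.consEquiv (fun _ : Fin (q + 1) => Fin n)) (j, J) k) : E n))
        = Matrix.vecCons (e j) (fun k => e (J k)) := by
      ext k
      refine Fin.cases ?_ (fun k => ?_) k <;> simp [Fin.consEquiv, Matrix.vecCons]
    have h0 : (Fin.consEquiv (fun _ : Fin (q + 1) => Fin n)) (j, J) 0 = j := rfl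
    rw [hv, h0, Function.update_self, Function.update_idem,
      AlternatingMap.curryLeft_apply_apply, AlternatingMap.curryLeft_apply_apply]
    have hu : ∀ z, Function.update (Matrix.vecCons (e j : E n) (fun k => e (J k))) 0 z
        = Matrix.vecCons z (fun k => e (J k)) := by
      intro z
      exact Fin.update_cons_zero _ _ _
    rw [hu]
  rw [h1]
  simp_rw [op_inner]
  unfold rA
  refine Finset.sum_congr rfl fun j _ => ?_
  have h2 : ∀ i : Fin n, -∑ l, R.toFun (e i) (e j) (e i) (e l) * MB ω (e l) (e j)
      = ∑ l, R.comp j i i l * MB ω (e j) (e l) := by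
    intro i
    rw [← Finset.sum_neg_distrib]
    refine Finset.sum_congr rfl fun l _ => ?_
    rw [R.anti, MB_comm ω (e l)]
    unfold comp; ring
  simp_rw [h2]
  rw [Finset.sum_comm]
  refine Finset.sum_congr rfl fun l _ => ?_
  rw [← Finset.sum_mul, ricA_eq R.isCurv]

lemma P_zero_one {q : ℕ} (R : CurvTensor n) (ω : Form n (q + 2)) :
    R.P ω 0 1 = - QA R.comp ω := by
  have h1 : R.P ω 0 1 = ∑ j, ∑ k, ∑ i, - ip ((ω.curryLeft (e i)).curryLeft
      (R.op (e i) (e j) (e k))) ((ω.curryLeft (e j)).curryLeft (e k)) := by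
    unfold P
    rw [← (Fin.consEquiv (fun _ : Fin (q + 2) => Fin n)).sum_comp, Fintype.sum_prod_type]
    refine Finset.sum_congr rfl fun j _ => ?_
    rw [← (Fin.consEquiv (fun _ : Fin (q + 1) => Fin n)).sum_comp, Fintype.sum_prod_type]
    refine Finset.sum_congr rfl fun k _ => ?_
    rw [Finset.sum_comm]
    refine Finset.sum_congr rfl fun i _ => ?_
    rw [ip, ← Finset.sum_neg_distrib]
    refine Finset.sum_congr rfl fun J _ => ?_
    have hv : (fun m => (e ((Fin.consEquiv (fun _ : Fin (q + 2) => Fin n))
          (j, (Fin.consEquiv (fun _ : Fin (q + 1) => Fin n)) (k, J)) m) : E n))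
        = Matrix.vecCons (e j) (Matrix.vecCons (e k) (fun m => e (J m))) := by
      ext m
      refine Fin.cases ?_ (fun m => ?_) m
      · simp [Fin.consEquiv, Matrix.vecCons]
      · refine Fin.cases ?_ (fun m => ?_) m <;> simp [Fin.consEquiv, Matrix.vecCons]
    have h0 : (Fin.consEquiv (fun _ : Fin (q + 2) => Fin n))
          (j, (Fin.consEquiv (fun _ : Fin (q + 1) => Fin n)) (k, J)) 0 = j := rfl
    rw [hv, h0]
    have hu0 : ∀ z, Function.update (Matrix.vecCons (e j : E n)
          (Matrix.vecCons (e k) (fun m => e (J m)))) 0 z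
        = Matrix.vecCons z (Matrix.vecCons (e k) (fun m => e (J m))) := by
      intro z
      exact Fin.update_cons_zero _ _ _
    rw [hu0]
    have hval : (Matrix.vecCons (e i : E n) (Matrix.vecCons (e k) (fun m => e (J m)))) 1 = e k := by
      rfl
    rw [hval]
    have hu1 : ∀ z, Function.update (Matrix.vecCons (e i : E n)
          (Matrix.vecCons (e k) (fun m => e (J m)))) 1 z
        = Matrix.vecCons (e i) (Matrix.vecCons z (fun m => e (J m))) := by
      intro z
      have := Fin.cons_update (α := fun _ => E n) (e i) (Matrix.vecCons (e k) (fun m => e (J m))) 0 z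
      rw [Matrix.vecCons, ← Fin.succ_zero_eq_one, ← this]
      congr 1
      exact Fin.update_cons_zero _ _ _
    rw [hu1, AlternatingMap.curryLeft_apply_apply, AlternatingMap.curryLeft_apply_apply,
      AlternatingMap.curryLeft_apply_apply, AlternatingMap.curryLeft_apply_apply]
  rw [h1]
  have h2 : ∀ i j k : Fin n, ip ((ω.curryLeft (e i)).curryLeft
      (R.op (e i) (e j) (e k))) ((ω.curryLeft (e j)).curryLeft (e k))
      = ∑ l, R.comp i j k l * Gm ω i l j k := by
    intro i j k
    unfold op
    rw [map_sum]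
    have : ∀ φ : Form n q, ip (∑ l, (ω.curryLeft (e i)).curryLeft
        (R.toFun (e i) (e j) (e k) (e l) • e l)) φ
        = ∑ l, R.toFun (e i) (e j) (e k) (e l) * ip ((ω.curryLeft (e i)).curryLeft (e l)) φ := by
      intro φ
      have hB := ipB_apply (∑ l, (ω.curryLeft (e i)).curryLeft
        (R.toFun (e i) (e j) (e k) (e l) • e l)) φ
      rw [← hB]
      simp only [map_sum, map_smul, LinearMap.sum_apply, LinearMap.smul_apply, smul_eq_mul,
        ipB_apply]
    rw [this]
    rfl
  simp_rw [h2]
  unfold QA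
  have h3 : ∑ j, ∑ k, ∑ i, -∑ l, R.comp i j k l * Gm ω i l j k
      = - ∑ j, ∑ k, ∑ i, ∑ l, R.comp i j k l * Gm ω i l j k := by
    simp only [Finset.sum_neg_distrib]
  rw [h3, ← rot3 (fun i j k l => R.comp i j k l * Gm ω i l j k), swap12]
  congr 1
  refine Finset.sum_congr rfl fun i _ => Finset.sum_congr rfl fun j _ =>
    Finset.sum_congr rfl fun k _ => Finset.sum_congr rfl fun l _ => ?_
  rw [R.isCurv.anti j i k l, Gm_swap1 ω j l i k]
  ring

/-- the quadratic form of the Weitzenböck operator in components, degree at least two -/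
theorem weitzForm_comp {q : ℕ} (R : CurvTensor n) (ω : Form n (q + 2)) :
    R.weitzForm ω = ((q : ℝ) + 2) * (rA R.comp ω - ((q : ℝ) + 1) * QA R.comp ω) := by
  rw [weitzForm_eq, sum_P, P_zero_zero, P_zero_one]
  ring

/-- the quadratic form of the Weitzenböck operator in components, degree one -/
theorem weitzForm_one (R : CurvTensor n) (ω : Form n 1) :
    R.weitzForm ω = rA R.comp ω := by
  rw [weitzForm_eq]
  simp [P_zero_zero]

end CurvTensor

end Pool.Agent.H61.YP
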